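import Pool.Agent.H.MP_b4625f_gt.B

set_option autoImplicit false

namespace Pool.Agent.H.MP_08099c_gt

open Set Real Filter Topology Pool.Agent.H.MP_b4625f_gt

lemma global_sol {G : ℝ → ℝ → ℝ} {K : NNReal} (hf : ∀ t, LipschitzWith K (G t))
    (hb : ∀ t x, ‖G t x‖ ≤ K) (hc : ∀ x, Continuous fun t => G t x) (x : ℝ) :
    ∃ α : ℝ → ℝ, α 0 = x ∧ ∀ t, HasDerivAt α (G t (α t)) t := by
  have h1 : ∀ r : ℝ, ∃ α : ℝ → ℝ, α 0 = x ∧
      ∀ t ∈ Ioo (-(|r| + 1)) (|r| + 1), HasDerivAt α (G t (α t)) t := fun r => by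
    have h0 : 0 < |r| + 1 := by positivity
    have P : IsPicardLindelof G (tmin := -(|r| + 1)) (tmax := |r| + 1)
        ⟨0, by linarith, h0.le⟩ x (K * ⟨_, h0.le⟩) 0 K K :=
      ⟨fun t _ => (hf t).lipschitzOnWith, fun x _ => (hc x).continuousOn,
        fun t _ x _ => hb t x, by simp; rfl⟩
    obtain ⟨α, h1, h2⟩ := P.exists_eq_forall_mem_Icc_hasDerivWithinAt₀
    exact ⟨α, h1, fun t ht => (h2 t (Ioo_subset_Icc_self ht)).hasDerivAt (Icc_mem_nhds ht.1 ht.2)⟩
  choose α h1 h2 using h1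
  have h3 : ∀ r s, |r| ≤ |s| → EqOn (α r) (α s) (Ioo (-(|r| + 1)) (|r| + 1)) := fun r s h =>
    ODE_solution_unique_of_mem_Ioo (v := G) (s := fun _ => univ) (t₀ := 0)
      (fun t _ => (hf t).lipschitzOnWith) ⟨by linarith [abs_nonneg r], by positivity⟩
      (fun t ht => ⟨h2 r t ht, trivial⟩)
      (fun t ht => ⟨h2 s t (Ioo_subset_Ioo (by linarith) (by linarith) ht), trivial⟩)
      (by rw [h1, h1])
  have h4 : ∀ t : ℝ, t ∈ Ioo (-(|t| + 1)) (|t| + 1) := fun t =>
    ⟨by linarith [neg_abs_le t], by linarith [le_abs_self t]⟩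
  refine ⟨fun t => α t t, h1 0, fun t => (h2 t t (h4 t)).congr_of_eventuallyEq ?_⟩
  filter_upwards [Ioo_mem_nhds (h4 t).1 (h4 t).2] with s hs
  rcases le_total |s| |t| with h | h
  exacts [h3 s t h (h4 s), (h3 t s h hs).symm]

def Sub (v κ : ℝ → ℝ) (L l : ℝ) : Prop :=
  ∃ α a : ℝ → ℝ, (∀ t, HasDerivAt α (a t) t) ∧ α L = α 0 ∧
    ∀ t ∈ Icc 0 L, 0 < α t ∧ α t < π ∧ a t ≤ v t * sin (α t) / l - κ t

variable {X Y v φ κ : ℝ → ℝ} {L : ℝ} (T : Track X Y v φ κ L) {l : ℝ}
include T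

lemma v_bd : ∃ K > 0, ∀ t, v t ≤ K := by
  obtain ⟨K, hK⟩ := (Function.Periodic.isBounded_of_continuous (f := v) T.pv T.Lpos.ne'
    T.cv).bddAbove
  exact ⟨K, (T.vpos 0).trans_le (hK ⟨0, rfl⟩), fun t => hK ⟨t, rfl⟩⟩

lemma sol_ex (hl : 0 < l) (x : ℝ) : ∃ θ, θ 0 = x ∧ Sol v φ l θ := by
  obtain ⟨K, K0, hK⟩ := v_bd T
  have c3 := cont_of T.hφ
  have c4 := T.cv
  have hvl : ∀ t, |v t / l| ≤ K / l := fun t => by
    rw [abs_of_pos (div_pos (T.vpos t) hl)]
    exact div_le_div_of_nonneg_right (hK t) hl.le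
  refine global_sol (G := fun t x => v t * sin (x - φ t) / l) (K := ⟨K / l, by positivity⟩)
    (fun t => LipschitzWith.of_dist_le_mul fun a b => ?_) (fun t a => ?_) (fun a => by fun_prop) x
  · rw [Real.dist_eq, Real.dist_eq, show v t * sin (a - φ t) / l - v t * sin (b - φ t) / l
      = v t / l * (sin (a - φ t) - sin (b - φ t)) by ring, abs_mul]
    have := abs_sin_sub_sin_le (a - φ t) (b - φ t)
    rw [show a - φ t - (b - φ t) = a - b by ring] at this
    exact mul_le_mul (hvl t) this (abs_nonneg _) (div_pos K0 hl).le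
  · rw [Real.norm_eq_abs, show v t * sin (a - φ t) / l = v t / l * sin (a - φ t) by ring, abs_mul]
    exact (mul_le_of_le_one_right (abs_nonneg _) (abs_sin_le_one _)).trans (hvl t)

lemma sub_ex : ∃ l > 0, Sub v κ L l := by
  have c : Continuous fun t => κ t / v t := T.cκ.div T.cv fun t => (T.vpos t).ne'
  obtain ⟨C, hC⟩ := (isCompact_Icc (a := 0) (b := L)).bddAbove_image c.continuousOn
  have C0 : 0 ≤ C := (div_nonneg (T.κ0 0) (T.vpos 0).le).trans
    (hC ⟨0, ⟨le_rfl, T.Lpos.le⟩, rfl⟩)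
  refine ⟨1 / (C + 1), by positivity, fun _ => π / 2, fun _ => 0,
    fun t => hasDerivAt_const _ _, rfl, fun t ht => ⟨by positivity, by linarith [pi_pos], ?_⟩⟩
  have h : κ t / v t ≤ C := hC ⟨t, ht, rfl⟩
  rw [div_le_iff₀ (T.vpos t)] at h
  rw [sin_pi_div_two, mul_one, div_div_eq_mul_div, div_one]
  nlinarith [T.vpos t]

lemma sub_bd : BddAbove {l | 0 < l ∧ Sub v κ L l} := by
  obtain ⟨K, K0, hK⟩ := v_bd T
  refine ⟨K * L / (2 * π), ?_⟩
  rintro l ⟨hl, α, a, h1, h2, h3⟩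
  have hL := T.Lpos
  obtain ⟨x, hx, e⟩ := exists_hasDerivAt_eq_slope (fun t => α t + φ t) (fun t => a t + κ t) hL
    ((cont_of h1).add (cont_of T.hφ)).continuousOn fun x _ => (h1 x).add (T.hφ x)
  have p0 := T.pφ 0
  rw [zero_add] at p0
  rw [h2, p0, sub_zero, eq_div_iff hL.ne'] at e
  have h4 := (h3 x (Ioo_subset_Icc_self hx)).2.2
  have h5 : v x * sin (α x) / l ≤ K / l := div_le_div_of_nonneg_right
    ((mul_le_of_le_one_right (T.vpos x).le (sin_le_one _)).trans (hK x)) hl.le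
  have h6 : 2 * π ≤ K / l * L := by nlinarith
  rw [div_mul_eq_mul_div, le_div_iff₀ hl] at h6
  rw [le_div_iff₀ (by positivity)]; linarith

lemma closed_sub (hl : 0 < l) {θ : ℝ → ℝ} (h : Sol v φ l θ) {m : ℤ}
    (hm : θ L = θ 0 + m * (2 * π)) : Sub v κ L l := by
  obtain rfl := rot T hl h hm
  have hL := T.Lpos
  have hπ := pi_pos
  have p0 := T.pφ 0
  rw [zero_add] at p0
  push_cast at hm
  have h3 := Int.floor_le ((θ 0 - φ 0) / π)
  have h4 := Int.lt_floor_add_one ((θ 0 - φ 0) / π)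
  rw [le_div_iff₀ hπ] at h3
  rw [div_lt_iff₀ hπ] at h4
  generalize ⌊(θ 0 - φ 0) / π⌋ = k at h3 h4
  have lo' : ∀ t ∈ Ico 0 L, k * π < θ t - φ t := fun t ht => by
    by_contra q
    push Not at q
    linarith [cross T h k ht.2 q]
  have rg : ∀ t ∈ Icc 0 L, k * π < θ t - φ t ∧ θ t - φ t < (k + 1) * π := fun t ht => by
    constructor
    · rcases ht.2.eq_or_lt with q | q
      · rw [q]; linarith [lo' 0 ⟨le_rfl, hL⟩]
      · exact lo' t ⟨ht.1, q⟩
    · rcases ht.1.eq_or_lt with q | q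
      · rw [← q]; exact h4
      · have := cross T h (k + 1) q (by push_cast; exact h4.le)
        push_cast at this; exact this
  rcases Int.even_or_odd' k with ⟨j, rfl | rfl⟩
  · refine ⟨fun t => θ t - φ t - j * (2 * π), fun t => v t * sin (θ t - φ t) / l - κ t,
      fun t => ((h t).sub (T.hφ t)).sub_const _, by simp only; linarith, fun t ht => ?_⟩
    have := rg t ht
    push_cast at this
    refine ⟨by simp only; linarith, by simp only; linarith, ?_⟩
    simp only [sin_sub_int_mul_two_pi, le_refl]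
  · exfalso
    obtain ⟨x, hx, e⟩ := exists_hasDerivAt_eq_slope θ _ hL (cont_of h).continuousOn
      fun x _ => h x
    have := rg x (Ioo_subset_Icc_self hx)
    push_cast at this
    have s : sin (θ x - φ x) < 0 := by
      rw [← sin_sub_int_mul_two_pi _ (j + 1)]
      push_cast
      exact sin_neg_of_neg_of_neg_pi_lt (by linarith) (by linarith)
    have a1 := div_neg_of_neg_of_pos (mul_neg_of_pos_of_neg (T.vpos x) s) hl
    have a2 : 0 < (θ L - θ 0) / (L - 0) := div_pos (by linarith) (by linarith)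
    linarith

lemma sub_two {l1 : ℝ} (hl : 0 < l) (hl1 : l < l1) (hs : Sub v κ L l1) :
    (∃ θ, Sol v φ l θ ∧ sin ((θ L - θ 0) / 2) < 0) ∧
    (∃ θ, Sol v φ l θ ∧ 0 < sin ((θ L - θ 0) / 2)) := by
  obtain ⟨α, a, h1, h2, h3⟩ := hs
  have hL := T.Lpos
  have hπ := pi_pos
  have p0 := T.pφ 0
  rw [zero_add] at p0
  have cmp : ∀ θ, Sol v φ l θ → α 0 ≤ θ 0 - φ 0 → α 0 < θ L - φ L := by
    intro θ h h0
    have c1 := cont_of h
    have c2 := cont_of h1
    have c3 := cont_of T.hφ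
    have c4 := T.cv
    have c5 := continuous_sinc
    have d := weigh (f := fun t => θ t - φ t - α t)
      (g := fun t => v t * sin (α t) / l - κ t - a t)
      (c := fun t => v t / l * (sinc ((θ t - φ t - α t) / 2) * cos ((θ t - φ t + α t) / 2)))
      (by fun_prop) (fun t => by
        refine (((h t).sub (T.hφ t)).sub (h1 t)).congr_deriv ?_
        linear_combination (v t / l) * sin_diff (θ t - φ t) (α t))
    obtain ⟨x, hx, e⟩ := exists_hasDerivAt_eq_slope _ _ hL (cont_of d).continuousOn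
      fun x _ => d x
    obtain ⟨r1, r2, r3⟩ := h3 x (Ioo_subset_Icc_self hx)
    have s := mul_pos (T.vpos x) (sin_pos_of_pos_of_lt_pi r1 r2)
    have g : 0 < v x * sin (α x) / l - κ x - a x := by
      linarith [div_lt_div_of_pos_left s hl hl1]
    have e2 := e ▸ mul_pos g (exp_pos _)
    rw [sub_zero, div_pos_iff_of_pos_right hL] at e2
    simp only [intervalIntegral.integral_same, neg_zero, exp_zero, mul_one] at e2
    have := (mul_pos_iff_of_pos_right (exp_pos _)).1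
      (lt_of_le_of_lt (show 0 ≤ θ 0 - φ 0 - α 0 by linarith) (sub_pos.1 e2))
    linarith
  obtain ⟨r1, r2, -⟩ := h3 0 ⟨le_rfl, hL.le⟩
  constructor
  · obtain ⟨θ, h0, h⟩ := sol_ex T hl (α 0 + φ 0)
    have a1 := cmp θ h (by linarith)
    have a2 := cross T h 1 hL (by push_cast; linarith)
    push_cast at a2
    refine ⟨θ, h, ?_⟩
    rw [← sin_sub_two_pi]
    exact sin_neg_of_neg_of_neg_pi_lt (by linarith) (by linarith)
  · obtain ⟨θ, h0, h⟩ := sol_ex T hl (π + φ 0)
    have a1 := cmp θ h (by linarith)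
    have a2 := cross T h 1 hL (by push_cast; linarith)
    push_cast at a2
    exact ⟨θ, h, sin_pos_of_pos_of_lt_pi (by linarith) (by linarith)⟩

noncomputable def RR (v φ : ℝ → ℝ) (l : ℝ) (θ : ℝ → ℝ) (t : ℝ) : ℝ :=
  exp (-∫ x in (0:ℝ)..t, v x * cos (θ x - φ x) / (2 * l))

lemma wr {θ η : ℝ → ℝ} (h1 : Sol v φ l θ) (h2 : Sol v φ l η) :
    RR v φ l θ L * RR v φ l η L * sin ((η L - θ L) / 2) = sin ((η 0 - θ 0) / 2) := by
  have c1 := cont_of h1
  have c2 := cont_of h2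
  have c3 := cont_of T.hφ
  have c4 := T.cv
  have d : ∀ t, HasDerivAt (fun t => RR v φ l θ t * RR v φ l η t * sin ((η t - θ t) / 2)) 0 t := by
    intro t
    have p1 := (prim (c := fun x => v x * cos (θ x - φ x) / (2 * l)) (by fun_prop) t).neg.exp
    have p2 := (prim (c := fun x => v x * cos (η x - φ x) / (2 * l)) (by fun_prop) t).neg.exp
    refine ((p1.mul p2).mul (((h2 t).sub (h1 t)).div_const 2).sin).congr_deriv ?_
    have e1 := cos_add_cos (η t - φ t) (θ t - φ t)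
    have e2 := sin_sub_sin (η t - φ t) (θ t - φ t)
    rw [show η t - φ t - (θ t - φ t) = η t - θ t by ring] at e1 e2
    simp only [Pi.neg_apply, Pi.mul_apply, Pi.sub_apply]
    generalize exp (-∫ x in (0:ℝ)..t, v x * cos (θ x - φ x) / (2 * l)) = A
    generalize exp (-∫ x in (0:ℝ)..t, v x * cos (η x - φ x) / (2 * l)) = B
    linear_combination (-(A * B * v t / (2 * l)) * sin ((η t - θ t) / 2)) * e1
      + (A * B * v t / (2 * l) * cos ((η t - θ t) / 2)) * e2
  have := is_const_of_deriv_eq_zero (fun t => (d t).differentiableAt) (fun t => (d t).deriv) L 0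
  simpa [RR] using this

end Pool.Agent.H.MP_08099c_gt
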