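import Pool.Agent.H.MP_08099c_gt.A

set_option autoImplicit false

namespace Pool.Agent.H.MP_08099c_gt

open Set Real Filter Topology Pool.Agent.H.MP_b4625f_gt

def Act (v φ : ℝ → ℝ) (L l a b c d : ℝ) (P : ℝ → Prop) : Prop :=
  a * d - b * c = 1 ∧ ∀ θ : ℝ → ℝ, Sol v φ l (fun t => θ t + π) → ∃ r, P r ∧
    a * cos (θ 0 / 2) + b * sin (θ 0 / 2) = r * cos (θ L / 2) ∧
    c * cos (θ 0 / 2) + d * sin (θ 0 / 2) = r * sin (θ L / 2)

lemma eig {a b c d : ℝ} (h : a * d - b * c = 1) (h2 : 2 ≤ |a + d|) :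
    ∃ x, cos x * (c * cos x + d * sin x) = sin x * (a * cos x + b * sin x) := by
  by_cases hb : b = 0
  · exact ⟨π / 2, by simp [hb]⟩
  have h3 : 0 ≤ discrim b (a - d) (-c) := by
    have : 2 ^ 2 ≤ |a + d| ^ 2 := by gcongr
    rw [sq_abs] at this
    unfold discrim; nlinarith
  obtain ⟨τ, hτ⟩ := exists_quadratic_eq_zero hb ⟨√(discrim b (a - d) (-c)),
    (mul_self_sqrt h3).symm⟩
  refine ⟨arctan τ, ?_⟩
  have e : sin (arctan τ) = τ * cos (arctan τ) := by
    have := tan_arctan τ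
    rw [tan_eq_sin_div_cos, div_eq_iff (cos_arctan_pos τ).ne'] at this
    exact this
  rw [e]
  linear_combination (-cos (arctan τ) ^ 2) * hτ

lemma hyp {a b c d x y : ℝ} (h : a * d - b * c = 1)
    (h1 : cos x * (c * cos x + d * sin x) - sin x * (a * cos x + b * sin x) < 0)
    (h2 : 0 < cos y * (c * cos y + d * sin y) - sin y * (a * cos y + b * sin y)) :
    2 < |a + d| := by
  by_contra hc
  push Not at hc
  have h3 : |a + d| ^ 2 ≤ 2 ^ 2 := by gcongr
  rw [sq_abs] at h3
  generalize cos x = p at *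
  generalize sin x = q at *
  generalize cos y = r at *
  generalize sin y = s at *
  have := mul_pos (neg_pos.2 h1) h2
  have e : 4 * (-(p * (c * p + d * q) - q * (a * p + b * q))
      * (r * (c * r + d * s) - s * (a * r + b * s)))
      + (2 * c * p * r + (d - a) * (p * s + q * r) - 2 * b * q * s) ^ 2
      = ((a + d) ^ 2 - 4 * (a * d - b * c)) * (p * s - q * r) ^ 2 := by ring
  rw [h] at e
  nlinarith [sq_nonneg (2 * c * p * r + (d - a) * (p * s + q * r) - 2 * b * q * s),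
    sq_nonneg (p * s - q * r)]

variable {X Y v φ κ : ℝ → ℝ} {L : ℝ} (T : Track X Y v φ κ L) {l : ℝ}
include T

lemma sol_ex' (hl : 0 < l) (x : ℝ) : ∃ θ : ℝ → ℝ, θ 0 = x ∧ Sol v φ l fun t => θ t + π := by
  obtain ⟨θ, h0, h⟩ := sol_ex T hl (x + π)
  exact ⟨fun t => θ t - π, by simp [h0], by simpa using h⟩

lemma act_ex (hl : 0 < l) : ∃ a b c d, Act v φ L l a b c d (fun r => 0 < r) := by
  obtain ⟨θ1, a1, s1⟩ := sol_ex' T hl 0
  obtain ⟨θ2, a2, s2⟩ := sol_ex' T hl π
  have w12 := wr T s1 s2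
  simp only [add_sub_add_right_eq_sub, a1, a2, sub_zero, sin_pi_div_two] at w12
  rw [sub_div, sin_sub] at w12
  refine ⟨RR v φ l (fun t => θ1 t + π) L * cos (θ1 L / 2),
    RR v φ l (fun t => θ2 t + π) L * cos (θ2 L / 2),
    RR v φ l (fun t => θ1 t + π) L * sin (θ1 L / 2),
    RR v φ l (fun t => θ2 t + π) L * sin (θ2 L / 2), by linear_combination w12,
    fun θ s => ⟨RR v φ l (fun t => θ t + π) L, exp_pos _, ?_⟩⟩
  have w1 := wr T s1 s
  have w2 := wr T s s2
  simp only [add_sub_add_right_eq_sub, a1, a2, sub_zero] at w1 w2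
  rw [sub_div, sin_sub] at w1
  rw [sub_div, sin_sub, sub_div, sin_pi_div_two_sub] at w2
  rw [← w1, ← w2]
  constructor
  · linear_combination (RR v φ l (fun t => θ t + π) L * cos (θ L / 2)) * w12
  · linear_combination (RR v φ l (fun t => θ t + π) L * sin (θ L / 2)) * w12

lemma act_tr (hl : 0 < l) {a b c d a' b' c' d' : ℝ} {P Q : ℝ → Prop}
    (h : Act v φ L l a b c d P) (h' : Act v φ L l a' b' c' d' Q) : |a + d| = |a' + d'| := by
  have par : ∀ x, (a * cos x + b * sin x) * (c' * cos x + d' * sin x)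
      = (c * cos x + d * sin x) * (a' * cos x + b' * sin x) := fun x => by
    obtain ⟨θ, h0, s⟩ := sol_ex' T hl (2 * x)
    obtain ⟨r, -, e1, e2⟩ := h.2 θ s
    obtain ⟨r', -, e3, e4⟩ := h'.2 θ s
    rw [h0, mul_div_cancel_left₀ _ two_ne_zero] at e1 e2 e3 e4
    rw [e1, e2, e3, e4]; ring
  have p1 := par 0
  have p2 := par (π / 2)
  have p3 := par (π / 4)
  simp only [cos_zero, sin_zero, mul_one, mul_zero, add_zero, cos_pi_div_two, sin_pi_div_two,
    zero_add] at p1 p2
  have q : sin (π / 4) = cos (π / 4) := by rw [sin_pi_div_four, cos_pi_div_four]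
  have q0 : cos (π / 4) ^ 2 ≠ 0 := by rw [cos_pi_div_four]; positivity
  rw [q] at p3
  have p4 : (a + b) * (c' + d') = (c + d) * (a' + b') :=
    mul_right_cancel₀ q0 (by linear_combination p3)
  have d1 := h.1
  have d2 := h'.1
  have p5 : a * d' - c * b' = d * a' - b * c' := by linear_combination p4 - p1 - p2
  have e1 : a = (a * d' - c * b') * a' := by linear_combination (-a) * d2 - b' * p1
  have e2 : d = (a * d' - c * b') * d' := by
    rw [p5]; linear_combination (-d) * d2 + c' * p2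
  have e3 : (a * d' - c * b') ^ 2 = 1 := by
    have : (a * d' - c * b') * (d * a' - b * c') = 1 := by
      linear_combination (a' * d' - b' * c') * d1 + d2 + (d * b' - b * d') * p1
    rw [← p5] at this; linear_combination this
  have e4 : |a * d' - c * b'| = 1 := by
    rw [← sq_eq_sq₀ (abs_nonneg _) zero_le_one, sq_abs, e3]; norm_num
  have : a + d = (a * d' - c * b') * (a' + d') := by linear_combination e1 + e2
  rw [this, abs_mul, e4, one_mul]

theorem main : ∃ l0 > 0, ∀ l > 0, ∀ a b c d, Act v φ L l a b c d (fun _ => True) →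
    (l < l0 → 2 < |a + d|) ∧ (l0 < l → |a + d| < 2) := by
  obtain ⟨l1, h1, h2⟩ := sub_ex T
  have bd := sub_bd T
  refine ⟨sSup {l | 0 < l ∧ Sub v κ L l}, h1.trans_le (le_csSup bd ⟨h1, h2⟩),
    fun l hl a b c d h => ⟨fun hlt => ?_, fun hlt => ?_⟩⟩
  · obtain ⟨l2, ⟨-, h3⟩, h4⟩ := exists_lt_of_lt_csSup
      (s := {l | 0 < l ∧ Sub v κ L l}) ⟨l1, h1, h2⟩ hlt
    obtain ⟨a', b', c', d', h'⟩ := act_ex T hl
    rw [act_tr T hl h h']
    obtain ⟨⟨θ, s, n⟩, η, s', n'⟩ := sub_two T hl h4 h3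
    obtain ⟨r, r0, e1, e2⟩ := h'.2 (fun t => θ t - π) (by simpa using s)
    obtain ⟨r', r0', e3, e4⟩ := h'.2 (fun t => η t - π) (by simpa using s')
    refine hyp (x := (θ 0 - π) / 2) (y := (η 0 - π) / 2) h'.1 ?_ ?_
    · rw [e1, e2]
      rw [show (θ L - θ 0) / 2 = (θ L - π) / 2 - (θ 0 - π) / 2 by ring, sin_sub] at n
      nlinarith
    · rw [e3, e4]
      rw [show (η L - η 0) / 2 = (η L - π) / 2 - (η 0 - π) / 2 by ring, sin_sub] at n'
      nlinarith
  · by_contra hc
    push Not at hc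
    obtain ⟨x, hx⟩ := eig h.1 hc
    obtain ⟨θ, h0, s⟩ := sol_ex' T hl (2 * x)
    obtain ⟨r, -, e1, e2⟩ := h.2 θ s
    rw [h0, mul_div_cancel_left₀ _ two_ne_zero] at e1 e2
    have r0 : r ≠ 0 := by
      rintro rfl
      have d1 := h.1
      have c0 : cos x = 0 := by linear_combination (-cos x) * d1 + d * e1 - b * e2
      have s0 : sin x = 0 := by linear_combination (-sin x) * d1 - c * e1 + a * e2
      have := sin_sq_add_cos_sq x
      rw [c0, s0] at this; norm_num at this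
    rw [e1, e2] at hx
    have : sin (θ L / 2 - x) = 0 := by
      rw [sin_sub]; exact mul_left_cancel₀ r0 (by linear_combination hx)
    obtain ⟨m, hm⟩ := sin_eq_zero_iff.1 this
    have := closed_sub T hl s (m := m) (by simp only [h0]; linarith)
    linarith [le_csSup bd ⟨hl, this⟩]

end Pool.Agent.H.MP_08099c_gt
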